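import Pool.Agent.LGam.Final

/-!
There is a finite graph that is a segment intersection graph and a `B₁`-VPG graph but not an
{L, Gamma}-graph.

The witness is the blow-up of an explicit 20-vertex graph: every vertex is replaced by 14
pairwise non-adjacent copies.  An {L, Gamma}-representation of the blow-up contains one of the
20-vertex graph in which adjacent shapes have corners with different abscissae
(`exists_choice`); such a representation yields two linear orders and a type for every vertex
(`Sol`), and these are refuted by a resolution proof checked by the kernel (`no_sol`).
-/

namespace Pool.Agent.Results.MP_34d506_co.NotEqual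

open Pool.Agent.LGam

theorem result : ∃ (V : Type) (_ : Fintype V) (G : SimpleGraph V),
    InSEG G ∧ InB1VPG G ∧ ¬ InLGamma G :=
  ⟨Fin nn × Fin kk, inferInstance, GG, GG_seg, GG_b1, GG_not⟩

end Pool.Agent.Results.MP_34d506_co.NotEqual
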